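import Mathlib

/-!
# Normal defect of a cyclic weighted shift and its truncation (disproof)

For `n = 4` and the weights `(1, 2, 1, 1)` the cyclic weighted shift `A` has `ε(A) = 1` and
normal defect `2 = ε(A) + 1`, while the truncated shift `Ã` (size 5) has normal defect
`2 = ε(Ã)`, not `ε(Ã) + 1`.
-/

namespace Pool.Agent.Results.MP_a6de22_an.NormalDefect

open Matrix

/-- `N` is a normal completion of `X` of size `m + k`: `N` is normal and its leading principal
`m × m` submatrix is `X`. -/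
def IsNormalCompletion {m k : ℕ} (X : Matrix (Fin m) (Fin m) ℂ)
    (N : Matrix (Fin (m + k)) (Fin (m + k)) ℂ) : Prop :=
  N * Nᴴ = Nᴴ * N ∧ ∀ i j : Fin m, N (Fin.castAdd k i) (Fin.castAdd k j) = X i j

/-- The normal defect: the least `k` for which a normal completion of size `m + k` exists. -/
noncomputable def nd {m : ℕ} (X : Matrix (Fin m) (Fin m) ℂ) : ℕ :=
  sInf {k | ∃ N : Matrix (Fin (m + k)) (Fin (m + k)) ℂ, IsNormalCompletion X N}

/-- The self-commutator `X X* - X* X`. -/
noncomputable def selfComm {m : ℕ} (X : Matrix (Fin m) (Fin m) ℂ) : Matrix (Fin m) (Fin m) ℂ :=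
  X * Xᴴ - Xᴴ * X

theorem selfComm_isHermitian {m : ℕ} (X : Matrix (Fin m) (Fin m) ℂ) :
    (selfComm X).IsHermitian := by
  unfold selfComm
  exact (isHermitian_mul_conjTranspose_self X).sub (isHermitian_conjTranspose_mul_self X)

/-- The number of positive eigenvalues of `X X* - X* X`, with multiplicity. -/
noncomputable def iPos {m : ℕ} (X : Matrix (Fin m) (Fin m) ℂ) : ℕ :=
  Fintype.card {i : Fin m // 0 < (selfComm_isHermitian X).eigenvalues i}

/-- The number of negative eigenvalues of `X X* - X* X`, with multiplicity. -/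
noncomputable def iNeg {m : ℕ} (X : Matrix (Fin m) (Fin m) ℂ) : ℕ :=
  Fintype.card {i : Fin m // (selfComm_isHermitian X).eigenvalues i < 0}

/-- `ε(X) = max (i₊[X,X*], i₋[X,X*])`. -/
noncomputable def eps {m : ℕ} (X : Matrix (Fin m) (Fin m) ℂ) : ℕ := max (iPos X) (iNeg X)

/-- The cyclic weighted shift: entries `a_k` at `(k, k+1)` for `k < n` and `a_n` at `(n, 1)`
(in 1-based indexing), all other entries zero. -/
def cyc {n : ℕ} (a : Fin n → ℂ) : Matrix (Fin n) (Fin n) ℂ := fun i j =>
  if i.val + 1 = j.val then a i else if i.val + 1 = n ∧ j.val = 0 then a i else 0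

/-- The `(n+1) × (n+1)` truncated shift: entries `a_k` at `(k, k+1)` for `1 ≤ k ≤ n`,
all other entries zero. -/
def trunc {n : ℕ} (a : Fin n → ℂ) : Matrix (Fin (n + 1)) (Fin (n + 1)) ℂ := fun i j =>
  if h : i.val < n then (if i.val + 1 = j.val then a ⟨i.val, h⟩ else 0) else 0

/-- Eigenvalues of a Hermitian matrix that is diagonal: counting with a predicate. -/
theorem card_eigenvalues {m : ℕ} (M : Matrix (Fin m) (Fin m) ℂ) (hM : M.IsHermitian)
    (d : Fin m → ℝ) (hd : M = Matrix.diagonal (fun i => (d i : ℂ))) (P : ℝ → Prop)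
    [DecidablePred P] [Fintype {i : Fin m // P (hM.eigenvalues i)}] :
    Fintype.card {i : Fin m // P (hM.eigenvalues i)} =
      (Finset.univ.filter fun i => P (d i)).card := by
  have h1 : M.charpoly.roots =
      Multiset.map (fun x : ℝ => (x : ℂ)) (Multiset.map hM.eigenvalues Finset.univ.val) := by
    rw [hM.roots_charpoly_eq_eigenvalues, Multiset.map_map]; rfl
  have h2 : M.charpoly.roots =
      Multiset.map (fun x : ℝ => (x : ℂ)) (Multiset.map d Finset.univ.val) := by
    rw [hd, Matrix.charpoly_diagonal, Polynomial.roots_prod]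
    · simp [Function.comp_def]
    · simp [Finset.prod_ne_zero_iff, Polynomial.X_sub_C_ne_zero]
  have h3 : Multiset.map hM.eigenvalues Finset.univ.val = Multiset.map d Finset.univ.val :=
    Multiset.map_injective Complex.ofReal_injective (h1.symm.trans h2)
  have h4 := congrArg (fun s => (Multiset.filter P s).card) h3
  simp only [Multiset.filter_map, Multiset.card_map] at h4
  rw [Fintype.card_subtype]
  exact h4

/-- The weights `(1, 2, 1, 1)`. -/
def wt : Fin 4 → ℂ := ![1, 2, 1, 1]

theorem selfComm_cyc :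
    selfComm (cyc wt) = Matrix.diagonal (fun i => ((![0, 3, -3, 0] : Fin 4 → ℝ) i : ℂ)) := by
  ext i j
  fin_cases i <;> fin_cases j <;>
    simp [selfComm, cyc, wt, Matrix.mul_apply, Fin.sum_univ_succ, Matrix.diagonal,
      Matrix.conjTranspose_apply, Complex.conj_ofNat] <;> norm_num

theorem selfComm_trunc :
    selfComm (trunc wt) = Matrix.diagonal (fun i => ((![1, 3, -3, 0, -1] : Fin 5 → ℝ) i : ℂ)) := by
  ext i j
  fin_cases i <;> fin_cases j <;>
    simp [selfComm, trunc, wt, Matrix.mul_apply, Fin.sum_univ_succ, Matrix.diagonal,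
      Matrix.conjTranspose_apply, Complex.conj_ofNat] <;> norm_num

theorem eps_cyc : eps (cyc wt) = 1 := by
  unfold eps iPos iNeg
  rw [card_eigenvalues _ _ _ selfComm_cyc (fun x => 0 < x),
    card_eigenvalues _ _ _ selfComm_cyc (fun x => x < 0)]
  have h1 : (Finset.univ.filter fun i => 0 < (![0, 3, -3, 0] : Fin 4 → ℝ) i) = {1} := by
    ext i; fin_cases i <;> simp
  have h2 : (Finset.univ.filter fun i => (![0, 3, -3, 0] : Fin 4 → ℝ) i < 0) = {2} := by
    ext i; fin_cases i <;> simp
  rw [h1, h2]; simp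

theorem eps_trunc : eps (trunc wt) = 2 := by
  unfold eps iPos iNeg
  rw [card_eigenvalues _ _ _ selfComm_trunc (fun x => 0 < x),
    card_eigenvalues _ _ _ selfComm_trunc (fun x => x < 0)]
  have h1 : (Finset.univ.filter fun i => 0 < (![1, 3, -3, 0, -1] : Fin 5 → ℝ) i) = {0, 1} := by
    ext i; fin_cases i <;> simp
  have h2 : (Finset.univ.filter fun i => (![1, 3, -3, 0, -1] : Fin 5 → ℝ) i < 0) = {2, 4} := by
    ext i; fin_cases i <;> simp
  rw [h1, h2]; rfl

theorem block11 {m k : ℕ} {X : Matrix (Fin m) (Fin m) ℂ} {N : Matrix (Fin (m + k)) (Fin (m + k)) ℂ}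
    (h : IsNormalCompletion X N) (i j : Fin m) :
    selfComm X i j = ∑ l : Fin k, star (N (Fin.natAdd m l) (Fin.castAdd k i)) *
        N (Fin.natAdd m l) (Fin.castAdd k j) -
      ∑ l : Fin k, N (Fin.castAdd k i) (Fin.natAdd m l) *
        star (N (Fin.castAdd k j) (Fin.natAdd m l)) := by
  have e := congrFun (congrFun h.1 (Fin.castAdd k i)) (Fin.castAdd k j)
  simp only [Matrix.mul_apply, Matrix.conjTranspose_apply, Fin.sum_univ_add, h.2] at e
  simp only [selfComm, Matrix.sub_apply, Matrix.mul_apply, Matrix.conjTranspose_apply]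
  linear_combination e

theorem block12 {m k : ℕ} {X : Matrix (Fin m) (Fin m) ℂ} {N : Matrix (Fin (m + k)) (Fin (m + k)) ℂ}
    (h : IsNormalCompletion X N) (i : Fin m) (l : Fin k) :
    ∑ s, X i s * star (N (Fin.natAdd m l) (Fin.castAdd k s)) +
      ∑ l', N (Fin.castAdd k i) (Fin.natAdd m l') * star (N (Fin.natAdd m l) (Fin.natAdd m l')) =
    ∑ s, star (X s i) * N (Fin.castAdd k s) (Fin.natAdd m l) +
      ∑ l', star (N (Fin.natAdd m l') (Fin.castAdd k i)) *
        N (Fin.natAdd m l') (Fin.natAdd m l) := by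
  have e := congrFun (congrFun h.1 (Fin.castAdd k i)) (Fin.natAdd m l)
  simp only [Matrix.mul_apply, Matrix.conjTranspose_apply, Fin.sum_univ_add, h.2] at e
  exact e

/-- An explicit `6 × 6` normal completion of `cyc wt`. -/
noncomputable def N6 : Matrix (Fin (4 + 2)) (Fin (4 + 2)) ℂ :=
  !![0, 1, 0, 0, 1, 0;
     0, 0, 2, 0, 0, 1;
     0, 0, 0, 1, 0, 2;
     1, 0, 0, 0, -1, 0;
     -1, 0, 0, 1, -1/2, -1;
     0, 2, 1, 0, -1, 2]

/-- An explicit `7 × 7` normal completion of `trunc wt`. -/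
def N7 : Matrix (Fin (5 + 2)) (Fin (5 + 2)) ℂ :=
  !![0, 1, 0, 0, 0, 0, 0;
     0, 0, 2, 0, 0, 3, 2;
     0, 0, 0, 1, 0, 0, 2;
     0, 0, 0, 0, 1, 0, 0;
     0, 0, 0, 0, 0, 2, 1;
     1, 0, 0, 0, 0, 0, 4;
     0, 4, 1, 0, 2, 2, 4]

theorem N6_completion : IsNormalCompletion (cyc wt) N6 := by
  constructor
  · have h : N6ᴴ = !![0, 0, 0, 1, -1, 0;
       1, 0, 0, 0, 0, 2;
       0, 2, 0, 0, 0, 1;
       0, 0, 1, 0, 1, 0;
       1, 0, 0, -1, -1/2, -1;
       0, 1, 2, 0, -1, 2] := by
      ext i j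
      fin_cases i <;> fin_cases j <;>
        simp [N6, Matrix.conjTranspose_apply]
    rw [h]
    ext i j
    fin_cases i <;> fin_cases j <;>
      simp [N6, Matrix.mul_apply, Fin.sum_univ_succ] <;> norm_num
  · intro i j
    fin_cases i <;> fin_cases j <;> simp [N6, cyc, wt, Fin.castAdd, Fin.castLE]

theorem N7_completion : IsNormalCompletion (trunc wt) N7 := by
  constructor
  · have h : N7ᴴ = !![0, 0, 0, 0, 0, 1, 0;
       1, 0, 0, 0, 0, 0, 4;
       0, 2, 0, 0, 0, 0, 1;
       0, 0, 1, 0, 0, 0, 0;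
       0, 0, 0, 1, 0, 0, 2;
       0, 3, 0, 0, 2, 0, 2;
       0, 2, 2, 0, 1, 4, 4] := by
      ext i j
      fin_cases i <;> fin_cases j <;>
        simp [N7, Matrix.conjTranspose_apply]
    rw [h]
    ext i j
    fin_cases i <;> fin_cases j <;>
      simp [N7, Matrix.mul_apply, Fin.sum_univ_succ] <;> norm_num
  · intro i j
    fin_cases i <;> fin_cases j <;> simp [N7, trunc, wt, Fin.castAdd, Fin.castLE]

/-- The off-diagonal relation `conj c₀ * c₁ = b₀ * conj b₁` forces equality of the products of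
the squared moduli. -/
theorem prod_eq {c0 c1 b0 b1 : ℂ} (h : star c0 * c1 = b0 * star b1) :
    Complex.normSq c0 * Complex.normSq c1 = Complex.normSq b0 * Complex.normSq b1 := by
  have := congrArg Complex.normSq h
  simpa [Complex.normSq_conj] using this

theorem diag_eq {c b : ℂ} {r : ℝ} (h : ((r : ℝ) : ℂ) = star c * c - b * star b) :
    r = Complex.normSq c - Complex.normSq b := by
  have h1 : star c * c = ((Complex.normSq c : ℝ) : ℂ) := by
    simpa using Complex.normSq_eq_conj_mul_self.symm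
  have h2 : b * star b = ((Complex.normSq b : ℝ) : ℂ) := by
    simpa using Complex.mul_conj b
  rw [h1, h2, ← Complex.ofReal_sub] at h
  exact_mod_cast h

theorem not_completion_zero {m : ℕ} {X : Matrix (Fin m) (Fin m) ℂ}
    {N : Matrix (Fin (m + 0)) (Fin (m + 0)) ℂ} (h : IsNormalCompletion X N) (i j : Fin m) :
    selfComm X i j = 0 := by
  rw [block11 h i j]; simp

theorem cyc_no_one {N : Matrix (Fin (4 + 1)) (Fin (4 + 1)) ℂ}
    (h : IsNormalCompletion (cyc wt) N) : False := by
  set c : Fin 4 → ℂ := fun i => N (Fin.natAdd 4 0) (Fin.castAdd 1 i) with hc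
  set b : Fin 4 → ℂ := fun i => N (Fin.castAdd 1 i) (Fin.natAdd 4 0) with hb
  have key : ∀ i j, selfComm (cyc wt) i j = star (c i) * c j - b i * star (b j) := by
    intro i j
    rw [block11 h i j]
    simp [hc, hb]
  rw [selfComm_cyc] at key
  have d0 := diag_eq (c := c 0) (b := b 0) (r := 0) (by simpa using key 0 0)
  have d1 := diag_eq (c := c 1) (b := b 1) (r := 3) (by simpa using key 1 1)
  have d3 := diag_eq (c := c 3) (b := b 3) (r := 0) (by simpa using key 3 3)
  have o01 := prod_eq (c0 := c 0) (c1 := c 1) (b0 := b 0) (b1 := b 1) (by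
    have := key 0 1
    rw [Matrix.diagonal_apply_ne _ (by decide)] at this
    exact (sub_eq_zero.mp this.symm))
  have o31 := prod_eq (c0 := c 3) (c1 := c 1) (b0 := b 3) (b1 := b 1) (by
    have := key 3 1
    rw [Matrix.diagonal_apply_ne _ (by decide)] at this
    exact (sub_eq_zero.mp this.symm))
  have hc0 : c 0 = 0 := by
    rw [← Complex.normSq_eq_zero]
    have e : Complex.normSq (b 0) = Complex.normSq (c 0) := by linarith
    rw [e] at o01
    have : Complex.normSq (c 0) * (Complex.normSq (c 1) - Complex.normSq (b 1)) = 0 := by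
      linarith
    rw [← d1] at this
    linarith
  have hb3 : b 3 = 0 := by
    rw [← Complex.normSq_eq_zero]
    have e : Complex.normSq (c 3) = Complex.normSq (b 3) := by linarith
    rw [e] at o31
    have : Complex.normSq (b 3) * (Complex.normSq (c 1) - Complex.normSq (b 1)) = 0 := by
      linarith
    rw [← d1] at this
    linarith
  have hb0 : b 0 = 0 := by
    rw [← Complex.normSq_eq_zero]
    have : Complex.normSq (c 0) = 0 := by rw [hc0]; simp
    linarith
  have hrow := block12 h 0 0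
  have hc1 : star (c 1) = 0 := by
    have e1 : N (Fin.castAdd 1 (0 : Fin 4)) (Fin.natAdd 4 (0 : Fin 1)) = 0 := hb0
    have e2 : N (Fin.natAdd 4 (0 : Fin 1)) (Fin.castAdd 1 (0 : Fin 4)) = 0 := hc0
    have e3 : N (Fin.castAdd 1 (3 : Fin 4)) (Fin.natAdd 4 (0 : Fin 1)) = 0 := hb3
    have e4 : ∀ f : Fin 4 → ℂ, ∑ s, cyc wt 0 s * f s = f 1 := by
      intro f; simp [Fin.sum_univ_succ, cyc, wt]
    have e5 : ∀ f : Fin 4 → ℂ, ∑ s, star (cyc wt s 0) * f s = f 3 := by
      intro f; simp [Fin.sum_univ_succ, cyc, wt]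
    rw [e4 (fun s => star (N (Fin.natAdd 4 0) (Fin.castAdd 1 s))),
      e5 (fun s => N (Fin.castAdd 1 s) (Fin.natAdd 4 0))] at hrow
    simp only [Finset.univ_unique, Fin.default_eq_zero, Finset.sum_singleton, e1, e2, e3,
      zero_mul, star_zero, add_zero] at hrow
    exact hrow
  have : Complex.normSq (c 1) = 0 := by
    have : c 1 = 0 := by simpa using hc1
    rw [this]; simp
  have := Complex.normSq_nonneg (b 1)
  linarith

theorem trunc_no_one {N : Matrix (Fin (5 + 1)) (Fin (5 + 1)) ℂ}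
    (h : IsNormalCompletion (trunc wt) N) : False := by
  set c : Fin 5 → ℂ := fun i => N (Fin.natAdd 5 0) (Fin.castAdd 1 i) with hc
  set b : Fin 5 → ℂ := fun i => N (Fin.castAdd 1 i) (Fin.natAdd 5 0) with hb
  have key : ∀ i j, selfComm (trunc wt) i j = star (c i) * c j - b i * star (b j) := by
    intro i j
    rw [block11 h i j]
    simp [hc, hb]
  rw [selfComm_trunc] at key
  have d0 := diag_eq (c := c 0) (b := b 0) (r := 1) (by simpa using key 0 0)
  have d1 := diag_eq (c := c 1) (b := b 1) (r := 3) (by simpa using key 1 1)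
  have o01 := prod_eq (c0 := c 0) (c1 := c 1) (b0 := b 0) (b1 := b 1) (by
    have := key 0 1
    rw [Matrix.diagonal_apply_ne _ (by decide)] at this
    exact (sub_eq_zero.mp this.symm))
  have hb0 := Complex.normSq_nonneg (b 0)
  have hb1 := Complex.normSq_nonneg (b 1)
  have e0 : Complex.normSq (c 0) = Complex.normSq (b 0) + 1 := by linarith
  have e1 : Complex.normSq (c 1) = Complex.normSq (b 1) + 3 := by linarith
  rw [e0, e1] at o01
  linarith

theorem nd_cyc : nd (cyc wt) = 2 := by
  apply le_antisymm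
  · exact Nat.sInf_le ⟨N6, N6_completion⟩
  · refine le_csInf (s := {k | ∃ N : Matrix (Fin (4 + k)) (Fin (4 + k)) ℂ,
      IsNormalCompletion (cyc wt) N}) ⟨2, N6, N6_completion⟩ ?_
    rintro k ⟨N, hN⟩
    by_contra hk
    push Not at hk
    interval_cases k
    · have := not_completion_zero hN 1 1
      rw [selfComm_cyc] at this
      simp at this
    · exact cyc_no_one hN

theorem nd_trunc : nd (trunc wt) = 2 := by
  apply le_antisymm
  · exact Nat.sInf_le ⟨N7, N7_completion⟩
  · refine le_csInf (s := {k | ∃ N : Matrix (Fin (5 + k)) (Fin (5 + k)) ℂ,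
      IsNormalCompletion (trunc wt) N}) ⟨2, N7, N7_completion⟩ ?_
    rintro k ⟨N, hN⟩
    by_contra hk
    push Not at hk
    interval_cases k
    · have := not_completion_zero hN 1 1
      rw [selfComm_trunc] at this
      simp at this
    · exact trunc_no_one hN

/-- Q1 of MP_a6de22_an is false: for `n = 4` and the weights `(1, 2, 1, 1)` one has
`nd(A) = ε(A) + 1 = 2` but `nd(Ã) = ε(Ã) = 2`. -/
theorem result :
    (¬ ∀ (n : ℕ) (a : Fin n → ℂ), 4 ≤ n →
        nd (cyc a) = eps (cyc a) + 1 → nd (trunc a) = eps (trunc a) + 1) ∧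
    (eps (cyc ![(1 : ℂ), 2, 1, 1]) = 1 ∧ nd (cyc ![(1 : ℂ), 2, 1, 1]) = 2 ∧
      eps (trunc ![(1 : ℂ), 2, 1, 1]) = 2 ∧ nd (trunc ![(1 : ℂ), 2, 1, 1]) = 2) := by
  refine ⟨fun h => ?_, eps_cyc, nd_cyc, eps_trunc, nd_trunc⟩
  have := h 4 wt le_rfl (by rw [nd_cyc, eps_cyc])
  rw [nd_trunc, eps_trunc] at this
  omega

end Pool.Agent.Results.MP_a6de22_an.NormalDefect
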